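import Mathlib

set_option autoImplicit false

/-!
# Representations of small dimension of alternating groups have vectors with large stabilisers
-/

open Equiv Equiv.Perm Module

namespace Pool.Agent.R352.LR

variable {α : Type} [Fintype α] [DecidableEq α]

/-- If a three-cycle acts as a scalar, the whole group acts trivially. -/
theorem trivial_of_scalar {V : Type} [AddCommGroup V] [Module ℂ V] [Nontrivial V]
    (h5 : 5 ≤ Fintype.card α) (ρ : alternatingGroup α →* Module.End ℂ V)
    (z : alternatingGroup α) (hz : IsThreeCycle (z : Perm α)) (c : ℂ)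
    (hc : ρ z = c • (1 : Module.End ℂ V)) (g : alternatingGroup α) : ρ g = 1 := by
  have hinv : IsThreeCycle ((z⁻¹ : alternatingGroup α) : Perm α) := by
    simpa using hz.inv
  have h5n : 5 ≤ Nat.card α := by rwa [Nat.card_eq_fintype_card]
  have hconj : IsConj z z⁻¹ := alternatingGroup.isThreeCycle_isConj h5n hz hinv
  obtain ⟨w, hw⟩ := isConj_iff.1 hconj
  have h1 : ρ z⁻¹ = c • (1 : Module.End ℂ V) := by
    rw [← hw, map_mul, map_mul, hc, mul_smul_comm, mul_one, smul_mul_assoc, ← map_mul,
      mul_inv_cancel, map_one]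
  have h2 : (c * c) • (1 : Module.End ℂ V) = 1 := by
    have : ρ z * ρ z⁻¹ = 1 := by rw [← map_mul, mul_inv_cancel, map_one]
    rw [hc, h1, smul_mul_smul_comm, mul_one] at this
    exact this
  have h3 : (c * c * c) • (1 : Module.End ℂ V) = 1 := by
    have hz3 : z ^ 3 = 1 := by
      apply Subtype.ext
      have := pow_orderOf_eq_one (z : Perm α)
      rw [hz.orderOf] at this
      simpa using this
    have : ρ z ^ 3 = 1 := by rw [← map_pow, hz3, map_one]
    rw [hc, smul_pow, one_pow] at this
    rw [← this]
    congr 1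
    ring
  have h4 : ρ z = 1 := by
    rw [hc]
    calc c • (1 : Module.End ℂ V) = c • ((c * c) • (1 : Module.End ℂ V)) := by rw [h2]
      _ = (c * c * c) • (1 : Module.End ℂ V) := by rw [smul_smul]; congr 1; ring
      _ = 1 := h3
  have h5' : Subgroup.normalClosure ({z} : Set (alternatingGroup α)) ≤ ρ.ker :=
    Subgroup.normalClosure_le_normal (by
      rw [Set.singleton_subset_iff]
      exact h4)
  have h6 : Subgroup.normalClosure ({z} : Set (alternatingGroup α)) = ⊤ := by
    have := IsThreeCycle.alternating_normalClosure h5n hz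
    convert this
  rw [h6] at h5'
  exact h5' (Subgroup.mem_top g)

/-- the alternating group of the set of the fixed points -/
def incl (p : α → Prop) [DecidablePred p] :
    alternatingGroup (Subtype p) →* alternatingGroup α where
  toFun h := ⟨ofSubtype (h : Perm (Subtype p)), by
    rw [mem_alternatingGroup, sign_ofSubtype]
    exact h.2⟩
  map_one' := by
    apply Subtype.ext
    simp
  map_mul' x y := by
    apply Subtype.ext
    simp

/-- restriction of a representation -/
def restr {G V : Type} [Group G] [AddCommGroup V] [Module ℂ V] (ρ : G →* Module.End ℂ V)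
    (E : Submodule ℂ V) (hE : ∀ g, ∀ v ∈ E, ρ g v ∈ E) : G →* Module.End ℂ E where
  toFun g := (ρ g).restrict (hE g)
  map_one' := by
    ext v
    simp [LinearMap.restrict_apply]
  map_mul' x y := by
    ext v
    simp [LinearMap.restrict_apply]

theorem step_aux (j : ℕ)
    (IH : ∀ (β : Type) [Fintype β] [DecidableEq β], 3 * j + 5 ≤ Fintype.card β →
      ∀ (V : Type) [AddCommGroup V] [Module ℂ V] [FiniteDimensional ℂ V] [Nontrivial V]
        (ρ : alternatingGroup β →* Module.End ℂ V), finrank ℂ V < 2 ^ (j + 1) →
        ∃ K : Finset β, K.card ≤ 3 * j ∧ ∃ v : V, v ≠ 0 ∧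
          ∀ g : alternatingGroup β, (∀ a ∈ K, (g : Perm β) a = a) → ρ g v = v)
    (hα : 3 * (j + 1) + 5 ≤ Fintype.card α)
    (V : Type) [AddCommGroup V] [Module ℂ V] [FiniteDimensional ℂ V]
    (ρ : alternatingGroup α →* Module.End ℂ V) (z : alternatingGroup α)
    (hz : IsThreeCycle (z : Perm α)) (E : Submodule ℂ V) (hE0 : E ≠ ⊥)
    (hE : ∀ g : alternatingGroup α, Commute z g → ∀ v ∈ E, ρ g v ∈ E)
    (hdim : finrank ℂ E < 2 ^ (j + 1)) :
    ∃ K : Finset α, K.card ≤ 3 * (j + 1) ∧ ∃ v : V, v ≠ 0 ∧
      ∀ g : alternatingGroup α, (∀ a ∈ K, (g : Perm α) a = a) → ρ g v = v := by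
  classical
  set p : α → Prop := fun x => (z : Perm α) x = x with hp
  have hsupp : (z : Perm α).support.card = 3 := hz.card_support
  have hcard : Fintype.card (Subtype p) = Fintype.card α - 3 := by
    have h1 : Fintype.card {x // ¬ (z : Perm α) x ≠ x} =
        Fintype.card α - Fintype.card {x // (z : Perm α) x ≠ x} :=
      Fintype.card_subtype_compl _
    have h2 : Fintype.card {x // (z : Perm α) x ≠ x} = 3 := by
      rw [Fintype.card_subtype, ← hsupp]
      congr 1
    rw [h2] at h1
    rw [← h1]
    apply Fintype.card_congr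
    exact Equiv.subtypeEquivRight (fun x => by simp)
  have hcomm : ∀ h : alternatingGroup (Subtype p), Commute z (incl p h) := by
    intro h
    have hd : Disjoint (z : Perm α) ((incl p h : alternatingGroup α) : Perm α) := by
      intro x
      by_cases hx : p x
      · exact Or.inl hx
      · right
        exact ofSubtype_apply_of_not_mem _ hx
    have := hd.commute
    apply Subtype.ext
    exact this
  have : Nontrivial E := Submodule.nontrivial_iff_ne_bot.2 hE0
  obtain ⟨K, hK, v, hv, hfix⟩ := IH (Subtype p) (by rw [hcard]; omega) E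
    (restr (ρ.comp (incl p)) E (fun g v hv => hE _ (hcomm g) v hv)) hdim
  refine ⟨(z : Perm α).support ∪ K.map (Function.Embedding.subtype _), ?_, (v : V), ?_, ?_⟩
  · refine (Finset.card_union_le _ _).trans ?_
    rw [hsupp, Finset.card_map]
    omega
  · intro h
    exact hv (Subtype.ext h)
  · intro g hg
    have hgs : ∀ x, ¬ p x → (g : Perm α) x = x := by
      intro x hx
      exact hg x (Finset.mem_union_left _ (mem_support.2 hx))
    have h1 : ∀ x, p ((g : Perm α) x) ↔ p x := by
      intro x
      by_cases hx : p x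
      · refine ⟨fun _ => hx, fun _ => ?_⟩
        by_contra hgx
        have h2 := hgs _ hgx
        have h3 := (g : Perm α).injective h2
        rw [h3] at hgx
        exact hgx hx
      · rw [hgs x hx]
    have h2 : ∀ x, (g : Perm α) x ≠ x → p x := by
      intro x hx
      by_contra hpx
      exact hx (hgs x hpx)
    set h0 : Perm (Subtype p) := (g : Perm α).subtypePerm h1 with hh0
    have h3 : ofSubtype h0 = (g : Perm α) := ofSubtype_subtypePerm h1 h2
    have h4 : h0 ∈ alternatingGroup (Subtype p) := by
      rw [mem_alternatingGroup, ← sign_ofSubtype, h3]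
      exact g.2
    have h5 : incl p ⟨h0, h4⟩ = g := Subtype.ext h3
    have h6 := hfix ⟨h0, h4⟩ (fun a ha => by
      apply Subtype.ext
      have := hg a (Finset.mem_union_right _ (Finset.mem_map.2 ⟨a, ha, rfl⟩))
      simpa [hh0] using this)
    have h7 := congrArg Subtype.val h6
    have h8 : ρ (incl p ⟨h0, h4⟩) v = v := h7
    rw [h5] at h8
    exact h8

/-- **Representations of small dimension.** A nonzero complex representation of dimension less than
`2 ^ (j + 1)` of the alternating group of a set with at least `3 j + 5` elements has a nonzero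
vector fixed by the pointwise stabiliser of a set of at most `3 j` elements. -/
theorem exists_fixed (j : ℕ) : ∀ (α : Type) [Fintype α] [DecidableEq α],
    3 * j + 5 ≤ Fintype.card α →
    ∀ (V : Type) [AddCommGroup V] [Module ℂ V] [FiniteDimensional ℂ V] [Nontrivial V]
      (ρ : alternatingGroup α →* Module.End ℂ V), finrank ℂ V < 2 ^ (j + 1) →
      ∃ K : Finset α, K.card ≤ 3 * j ∧ ∃ v : V, v ≠ 0 ∧
        ∀ g : alternatingGroup α, (∀ a ∈ K, (g : Perm α) a = a) → ρ g v = v := by
  induction j with
  | zero =>
    intro α _ _ hα V _ _ _ _ ρ hdim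
    obtain ⟨z, hz⟩ : ∃ z : alternatingGroup α, IsThreeCycle (z : Perm α) := by
      obtain ⟨a, b, c, hab, hac, hbc⟩ := Fintype.two_lt_card_iff.1 (by omega : 2 < Fintype.card α)
      exact ⟨⟨swap a b * swap a c, (isThreeCycle_swap_mul_swap_same hab hac hbc).mem_alternatingGroup⟩,
        isThreeCycle_swap_mul_swap_same hab hac hbc⟩
    obtain ⟨c, hc⟩ := Module.End.exists_eigenvalue (ρ z)
    have h1 : Module.End.eigenspace (ρ z) c = ⊤ := by
      apply Submodule.eq_top_of_finrank_eq
      have h2 : 0 < finrank ℂ (Module.End.eigenspace (ρ z) c) := by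
        rw [Module.finrank_pos_iff]
        exact Submodule.nontrivial_iff_ne_bot.2 hc
      have h3 := Submodule.finrank_le (Module.End.eigenspace (ρ z) c)
      omega
    have h2 : ρ z = c • (1 : Module.End ℂ V) := by
      ext v
      have : v ∈ Module.End.eigenspace (ρ z) c := by rw [h1]; trivial
      simpa using Module.End.mem_eigenspace_iff.1 this
    obtain ⟨v, hv⟩ := exists_ne (0 : V)
    refine ⟨∅, by simp, v, hv, fun g _ => ?_⟩
    rw [trivial_of_scalar (by omega) ρ z hz c h2 g]
    rfl
  | succ j IH =>
    intro α _ _ hα V _ _ _ _ ρ hdim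
    obtain ⟨z, hz⟩ : ∃ z : alternatingGroup α, IsThreeCycle (z : Perm α) := by
      obtain ⟨a, b, c, hab, hac, hbc⟩ := Fintype.two_lt_card_iff.1 (by omega : 2 < Fintype.card α)
      exact ⟨⟨swap a b * swap a c, (isThreeCycle_swap_mul_swap_same hab hac hbc).mem_alternatingGroup⟩,
        isThreeCycle_swap_mul_swap_same hab hac hbc⟩
    obtain ⟨c, hc⟩ := Module.End.exists_eigenvalue (ρ z)
    set N : Module.End ℂ V := ρ z - c • (1 : Module.End ℂ V) with hN
    have hNc : ∀ g : alternatingGroup α, Commute z g → ∀ v, N (ρ g v) = ρ g (N v) := by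
      intro g hg v
      have h1 : ρ z * ρ g = ρ g * ρ z := by rw [← map_mul, ← map_mul, hg.eq]
      have h2 := LinearMap.congr_fun h1 v
      simp only [Module.End.mul_apply] at h2
      simp [hN, h2]
    by_cases hN0 : N = 0
    · have h2 : ρ z = c • (1 : Module.End ℂ V) := by
        rw [← sub_eq_zero]
        exact hN0
      obtain ⟨v, hv⟩ := exists_ne (0 : V)
      refine ⟨∅, by simp, v, hv, fun g _ => ?_⟩
      rw [trivial_of_scalar (by omega) ρ z hz c h2 g]
      rfl
    · have hker0 : LinearMap.ker N ≠ ⊥ := by
        intro h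
        apply hc
        show Module.End.eigenspace (ρ z) c = ⊥
        rw [Submodule.eq_bot_iff]
        intro v hv
        have h1 : v ∈ LinearMap.ker N := by
          rw [LinearMap.mem_ker, hN, LinearMap.sub_apply, Module.End.mem_eigenspace_iff.1 hv]
          simp
        rw [h] at h1
        exact h1
      have hran0 : LinearMap.range N ≠ ⊥ := by
        intro h
        exact hN0 (LinearMap.range_eq_bot.1 h)
      have hsum := LinearMap.finrank_range_add_finrank_ker N
      have hpow : 2 ^ (j + 1 + 1) = 2 * 2 ^ (j + 1) := by ring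
      rcases le_total (finrank ℂ (LinearMap.ker N)) (finrank ℂ (LinearMap.range N)) with h | h
      · refine step_aux j IH hα V ρ z hz (LinearMap.ker N) hker0 ?_ (by omega)
        intro g hg v hv
        rw [LinearMap.mem_ker] at hv ⊢
        rw [hNc g hg, hv, map_zero]
      · refine step_aux j IH hα V ρ z hz (LinearMap.range N) hran0 ?_ (by omega)
        rintro g hg v ⟨u, rfl⟩
        exact ⟨ρ g u, hNc g hg u⟩

end Pool.Agent.R352.LR
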