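import Pool.Agent.R352.LR.A
import Pool.Agent.H14R2.RC.Defs

set_option autoImplicit false

/-!
# Left invariant spaces of functions of small dimension on the alternating group have low level
-/

open Equiv Equiv.Perm Module Finset

namespace Pool.Agent.R352.LR

noncomputable section

/-- the functions with real and imaginary part in `L` -/
def cx {X : Type} (L : Submodule ℝ (X → ℝ)) : Submodule ℂ (X → ℂ) where
  carrier := {F | (fun g => (F g).re) ∈ L ∧ (fun g => (F g).im) ∈ L}
  zero_mem' := by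
    constructor
    · exact L.zero_mem
    · exact L.zero_mem
  add_mem' := by
    rintro F G ⟨h1, h2⟩ ⟨h3, h4⟩
    exact ⟨L.add_mem h1 h3, L.add_mem h2 h4⟩
  smul_mem' := by
    rintro c F ⟨h1, h2⟩
    constructor
    · have h3 := L.sub_mem (L.smul_mem c.re h1) (L.smul_mem c.im h2)
      convert h3 using 1
      funext g
      simp [Complex.mul_re]
    · have h3 := L.add_mem (L.smul_mem c.re h2) (L.smul_mem c.im h1)
      convert h3 using 1
      funext g
      simp [Complex.mul_im]

lemma mem_cx {X : Type} (L : Submodule ℝ (X → ℝ)) (F : X → ℂ) :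
    F ∈ cx L ↔ (fun g => (F g).re) ∈ L ∧ (fun g => (F g).im) ∈ L := Iff.rfl

lemma finrank_cx {X : Type} [Finite X] (L : Submodule ℝ (X → ℝ)) :
    finrank ℂ (cx L) ≤ finrank ℝ L := by
  classical
  have : Fintype X := Fintype.ofFinite X
  set b := Module.finBasis ℝ L with hb
  set B : Fin (finrank ℝ L) → (X → ℂ) := fun i g => (((b i : L) : X → ℝ) g : ℂ) with hB
  have key : ∀ f ∈ L, (fun g => ((f g : ℝ) : ℂ)) ∈ Submodule.span ℂ (Set.range B) := by
    intro f hf
    have h1 : (⟨f, hf⟩ : L) = ∑ i, b.repr ⟨f, hf⟩ i • b i := (b.sum_repr ⟨f, hf⟩).symm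
    have h2 : f = ∑ i, b.repr ⟨f, hf⟩ i • ((b i : L) : X → ℝ) := by
      have h4 := congrArg L.subtype h1
      rw [map_sum] at h4
      exact h4
    have h3 : (fun g => ((f g : ℝ) : ℂ)) = ∑ i, ((b.repr ⟨f, hf⟩ i : ℝ) : ℂ) • B i := by
      funext g
      have := congrFun h2 g
      rw [this]
      simp only [Finset.sum_apply, Pi.smul_apply, smul_eq_mul, hB]
      push_cast
      rfl
    rw [h3]
    exact Submodule.sum_mem _ fun i _ => Submodule.smul_mem _ _ (Submodule.subset_span ⟨i, rfl⟩)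
  have hle : cx L ≤ Submodule.span ℂ (Set.range B) := by
    intro F hF
    obtain ⟨h1, h2⟩ := (mem_cx L F).1 hF
    have h3 : F = (fun g => (((F g).re : ℝ) : ℂ)) + Complex.I • (fun g => (((F g).im : ℝ) : ℂ)) := by
      funext g
      simp only [Pi.add_apply, Pi.smul_apply, smul_eq_mul]
      rw [mul_comm, Complex.re_add_im]
    rw [h3]
    exact Submodule.add_mem _ (key _ h1) (Submodule.smul_mem _ _ (key _ h2))
  calc finrank ℂ (cx L) ≤ finrank ℂ (Submodule.span ℂ (Set.range B)) := Submodule.finrank_mono hle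
    _ ≤ Fintype.card (Fin (finrank ℝ L)) := finrank_range_le_card B
    _ = finrank ℝ L := Fintype.card_fin _

/-- left translation of functions -/
def ltr (G : Type) [Group G] : G →* Module.End ℂ (G → ℂ) where
  toFun h :=
    { toFun := fun F g => F (h⁻¹ * g)
      map_add' := fun _ _ => rfl
      map_smul' := fun _ _ => rfl }
  map_one' := by
    ext F g
    simp
  map_mul' x y := by
    ext F g
    simp [mul_assoc]

/-- invariant under all left translations -/
def LeftInv {G : Type} [Group G] (L : Submodule ℝ (G → ℝ)) : Prop :=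
  ∀ f ∈ L, ∀ h : G, (fun g => f (h * g)) ∈ L

lemma lowLevel_leftInv (n r : ℕ) : LeftInv (RC14.lowLevel n r) := by
  intro f hf h
  unfold RC14.lowLevel at hf ⊢
  induction hf using Submodule.span_induction with
  | mem f hf =>
    obtain ⟨K, hK, hinv⟩ := hf
    refine Submodule.subset_span ⟨K.map ((h⁻¹ : RC14.Alt n) : Perm (Fin n)).toEmbedding, ?_, ?_⟩
    · rw [Finset.card_map]; exact hK
    · intro u g hu
      have h1 : h * (u * g) = (h * u * h⁻¹) * (h * g) := by group
      show f (h * (u * g)) = f (h * g)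
      rw [h1]
      apply hinv
      intro a ha
      have h2 := hu (((h⁻¹ : RC14.Alt n) : Perm (Fin n)) a)
        (Finset.mem_map.2 ⟨a, ha, rfl⟩)
      show ((h : Perm (Fin n)) * (u : Perm (Fin n)) * ((h⁻¹ : RC14.Alt n) : Perm (Fin n))) a = a
      rw [Perm.mul_apply, Perm.mul_apply, h2]
      simp
  | zero => exact Submodule.zero_mem _
  | add f f' _ _ h1 h2 => exact Submodule.add_mem _ h1 h2
  | smul c f _ h1 => exact Submodule.smul_mem _ c h1

lemma lowLevel_mono {n r m : ℕ} (h : r ≤ m) : RC14.lowLevel n r ≤ RC14.lowLevel n m := by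
  apply Submodule.span_mono
  rintro f ⟨K, hK, hf⟩
  exact ⟨K, hK.trans h, hf⟩

/-- the part of `L` orthogonal to `M` -/
def orth {X : Type} [Fintype X] (L M : Submodule ℝ (X → ℝ)) : Submodule ℝ (X → ℝ) where
  carrier := {f | f ∈ L ∧ ∀ m ∈ M, ∑ g, f g * m g = 0}
  zero_mem' := ⟨L.zero_mem, fun m _ => by simp⟩
  add_mem' := by
    rintro f f' ⟨h1, h2⟩ ⟨h3, h4⟩
    refine ⟨L.add_mem h1 h3, fun m hm => ?_⟩
    simp only [Pi.add_apply, add_mul, Finset.sum_add_distrib, h2 m hm, h4 m hm, add_zero]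
  smul_mem' := by
    rintro c f ⟨h1, h2⟩
    refine ⟨L.smul_mem c h1, fun m hm => ?_⟩
    simp only [Pi.smul_apply, smul_eq_mul, mul_assoc, ← Finset.mul_sum, h2 m hm, mul_zero]

lemma exists_orth {X : Type} [Fintype X] (L M : Submodule ℝ (X → ℝ)) (hML : M ≤ L)
    (f : X → ℝ) (hf : f ∈ L) (hfM : f ∉ M) : ∃ q ∈ orth L M, q ≠ 0 := by
  set e := WithLp.linearEquiv 2 ℝ (X → ℝ) with he
  set K0 : Submodule ℝ (WithLp 2 (X → ℝ)) := M.comap e.toLinearMap with hK0
  obtain ⟨y, hy, q, hq, hfy⟩ := K0.exists_add_mem_mem_orthogonal (e.symm f)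
  have h1 : f = e y + e q := by
    rw [← map_add, ← hfy]
    simp
  refine ⟨e q, ⟨?_, ?_⟩, ?_⟩
  · have h2 : e q = f - e y := by rw [h1]; abel
    rw [h2]
    exact L.sub_mem hf (hML hy)
  · intro m hm
    have h2 := (Submodule.mem_orthogonal K0 q).1 hq (e.symm m) (by
      show e (e.symm m) ∈ M
      rw [LinearEquiv.apply_symm_apply]
      exact hm)
    rw [PiLp.inner_apply] at h2
    rw [← h2]
    refine Finset.sum_congr rfl fun g _ => ?_
    simp [he]
  · intro h
    rw [h, add_zero] at h1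
    apply hfM
    rw [h1]
    exact hy

/-- **Small left invariant spaces have low level.** -/
theorem le_lowLevel {n j : ℕ} (hn : 3 * j + 5 ≤ n) (L : Submodule ℝ (RC14.Alt n → ℝ))
    (hL : LeftInv L) (hd : finrank ℝ L < 2 ^ (j + 1)) : L ≤ RC14.lowLevel n (3 * j) := by
  intro f hf
  by_contra hfl
  set M := L ⊓ RC14.lowLevel n (3 * j) with hM
  obtain ⟨q, hq, hq0⟩ := exists_orth L M inf_le_left f hf (fun h => hfl h.2)
  set L1 := orth L M with hL1
  have hMinv : LeftInv M := fun m hm h => ⟨hL m hm.1 h, lowLevel_leftInv n _ m hm.2 h⟩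
  have hL1inv : LeftInv L1 := by
    rintro f ⟨hf1, hf2⟩ h
    refine ⟨hL f hf1 h, fun m hm => ?_⟩
    have h1 := hf2 _ (hMinv m hm h⁻¹)
    rw [← h1]
    refine Fintype.sum_equiv (Equiv.mulLeft h) _ _ fun g => ?_
    simp
  have hL1L : L1 ≤ L := fun f hf => hf.1
  have hdim : finrank ℂ (cx L1) < 2 ^ (j + 1) :=
    lt_of_le_of_lt ((finrank_cx L1).trans (Submodule.finrank_mono hL1L)) hd
  have hinv : ∀ h : RC14.Alt n, ∀ F ∈ cx L1, ltr (RC14.Alt n) h F ∈ cx L1 := by
    intro h F hF
    obtain ⟨h1, h2⟩ := (mem_cx L1 F).1 hF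
    exact ⟨hL1inv _ h1 h⁻¹, hL1inv _ h2 h⁻¹⟩
  have hne : Nontrivial (cx L1) := by
    rw [Submodule.nontrivial_iff_ne_bot]
    intro hbot
    have h1 : (fun g => ((q g : ℝ) : ℂ)) ∈ cx L1 := by
      refine ⟨?_, ?_⟩
      · simpa using hq
      · have h2 : (fun g => (((q g : ℝ) : ℂ)).im) = 0 := by
          funext g
          simp
        rw [h2]
        exact L1.zero_mem
    rw [hbot, Submodule.mem_bot] at h1
    apply hq0
    funext g
    have := congrFun h1 g
    simpa using this
  obtain ⟨K, hK, v, hv, hfix⟩ := exists_fixed j (Fin n) (by simpa using hn) (cx L1)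
    (restr (ltr (RC14.Alt n)) (cx L1) hinv) hdim
  have hF : ∀ h g : RC14.Alt n, (∀ a ∈ K, (h : Perm (Fin n)) a = a) →
      (v : RC14.Alt n → ℂ) (h * g) = (v : RC14.Alt n → ℂ) g := by
    intro h g hh
    have h1 := hfix h⁻¹ (fun a ha => by
      have := hh a ha
      show ((h⁻¹ : RC14.Alt n) : Perm (Fin n)) a = a
      rw [Subgroup.coe_inv, Perm.inv_eq_iff_eq, this])
    have h2 := congrArg Subtype.val h1
    have h3 : ltr (RC14.Alt n) h⁻¹ (v : RC14.Alt n → ℂ) = v := h2
    have h4 := congrFun h3 g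
    simpa [ltr] using h4
  obtain ⟨hre, him⟩ := (mem_cx L1 v).1 v.2
  have hzero : ∀ u : RC14.Alt n → ℝ, u ∈ L1 →
      (∀ h g : RC14.Alt n, (∀ a ∈ K, (h : Perm (Fin n)) a = a) → u (h * g) = u g) → u = 0 := by
    intro u hu hinvu
    have h1 : u ∈ RC14.lowLevel n (3 * j) := Submodule.subset_span ⟨K, hK, hinvu⟩
    have h2 := hu.2 u ⟨hL1L hu, h1⟩
    have h3 := (Finset.sum_eq_zero_iff_of_nonneg (fun g _ => mul_self_nonneg (u g))).1 h2
    funext g
    exact mul_self_eq_zero.1 (h3 g (Finset.mem_univ g))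
  have hre0 := hzero _ hre (fun h g hh => by rw [hF h g hh])
  have him0 := hzero _ him (fun h g hh => by rw [hF h g hh])
  apply hv
  apply Subtype.ext
  funext g
  apply Complex.ext
  · exact congrFun hre0 g
  · exact congrFun him0 g

/-- the span of the left translates of `f` -/
def translates {G : Type} [Group G] (f : G → ℝ) : Submodule ℝ (G → ℝ) :=
  Submodule.span ℝ (Set.range fun h : G => fun g : G => f (h * g))

lemma mem_translates {G : Type} [Group G] (f : G → ℝ) : f ∈ translates f :=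
  Submodule.subset_span ⟨1, by simp⟩

lemma translates_leftInv {G : Type} [Group G] (f : G → ℝ) : LeftInv (translates f) := by
  intro u hu h
  unfold translates at hu ⊢
  induction hu using Submodule.span_induction with
  | mem u hu =>
    obtain ⟨a, rfl⟩ := hu
    refine Submodule.subset_span ⟨a * h, ?_⟩
    funext g
    simp [mul_assoc]
  | zero => exact Submodule.zero_mem _
  | add f f' _ _ h1 h2 => exact Submodule.add_mem _ h1 h2
  | smul c f _ h1 => exact Submodule.smul_mem _ c h1

/-- if all left translates of `f` lie in `L`, their span is at most as large as `L` -/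
lemma translates_le {G : Type} [Group G] (f : G → ℝ) (L : Submodule ℝ (G → ℝ))
    (h : ∀ a : G, (fun g => f (a * g)) ∈ L) : translates f ≤ L := by
  apply Submodule.span_le.2
  rintro _ ⟨a, rfl⟩
  exact h a

end

end Pool.Agent.R352.LR
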