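import Pool.Agent.R352.LR.B

set_option autoImplicit false

/-!
# A gap for functions with few translates gives a gap for representations and actions
-/

open Module Finset RC14

namespace Pool.Agent.R352.LR

variable {G : Type} [Group G] [Fintype G] {k : ℕ}

/-- gap for the functions whose left translates span a space of dimension at most `D` -/
def FunGap (D ε : ℝ) (x : Fin k → G) : Prop :=
  ∀ f : G → ℝ, (finrank ℝ (translates f) : ℝ) ≤ D → ∑ g, f g = 0 →
    ∑ g, f g * walk x f g ≤ (1 - ε) * ∑ g, f g ^ 2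

noncomputable section

/-- the random walk operator of a group acting by linear isometries -/
def repWalk {V : Type} [NormedAddCommGroup V] [InnerProductSpace ℝ V] (x : Fin k → G)
    (ρ : G →* (V ≃ₗᵢ[ℝ] V)) (v : V) : V :=
  (1 / (2 * k) : ℝ) • ∑ i, (ρ (x i) v + ρ (x i)⁻¹ v)

omit [Fintype G] in
lemma inner_inv {V : Type} [NormedAddCommGroup V] [InnerProductSpace ℝ V]
    (ρ : G →* (V ≃ₗᵢ[ℝ] V)) (g : G) (u v : V) :
    inner ℝ u (ρ g v) = inner ℝ (ρ g⁻¹ u) v := by
  have h1 : ρ g (ρ g⁻¹ u) = u := by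
    have h2 : ρ g * ρ g⁻¹ = 1 := by rw [← map_mul, mul_inv_cancel, map_one]
    have h3 := DFunLike.congr_fun h2 u
    exact h3
  rw [← (ρ g).inner_map_map (ρ g⁻¹ u) v, h1]

theorem rep_gap {D ε : ℝ} {x : Fin k → G} (hG : FunGap D ε x)
    {V : Type} [NormedAddCommGroup V] [InnerProductSpace ℝ V] [FiniteDimensional ℝ V]
    (ρ : G →* (V ≃ₗᵢ[ℝ] V)) (hD : (finrank ℝ V : ℝ) ≤ D) (v : V)
    (hv : ∀ w, (∀ g, ρ g w = w) → inner ℝ w v = 0) :
    inner ℝ v (repWalk x ρ v) ≤ (1 - ε) * ‖v‖ ^ 2 := by
  classical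
  have hmul : ∀ g h : G, ∀ w, ρ (g * h) w = ρ g (ρ h w) := by
    intro g h w
    rw [map_mul]
    rfl
  -- the sum over the orbit vanishes
  have hsum : ∑ g, ρ g v = 0 := by
    set w := ∑ g, ρ g v with hw
    have h1 : ∀ h, ρ h w = w := by
      intro h
      rw [hw, map_sum]
      rw [← Fintype.sum_equiv (Equiv.mulLeft h) (fun g => ρ (h * g) v) (fun g => ρ g v)
        (fun g => rfl)]
      exact Finset.sum_congr rfl fun g _ => (hmul h g v).symm
    have h2 := hv w h1
    have h3 : inner ℝ w w = 0 := by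
      conv_lhs => rw [hw, inner_sum]
      rw [← hw]
      apply Finset.sum_eq_zero
      intro g _
      rw [inner_inv, h1]
      exact h2
    exact inner_self_eq_zero.1 h3
  -- the matrix coefficients
  set Φ : V →ₗ[ℝ] (G → ℝ) :=
    { toFun := fun u g => inner ℝ u (ρ g v)
      map_add' := fun u u' => by
        funext g
        simp [inner_add_left]
      map_smul' := fun c u => by
        funext g
        simp [inner_smul_left] } with hΦ
  have hΦa : ∀ u g, Φ u g = inner ℝ u (ρ g v) := fun u g => rfl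
  have htr : ∀ u, translates (Φ u) ≤ LinearMap.range Φ := by
    intro u
    apply translates_le
    intro a
    refine ⟨ρ a⁻¹ u, ?_⟩
    funext g
    rw [hΦa, hΦa, hmul, inner_inv ρ a]
  have hdim : ∀ u, (finrank ℝ (translates (Φ u)) : ℝ) ≤ D := by
    intro u
    have h1 : finrank ℝ (translates (Φ u)) ≤ finrank ℝ V :=
      (Submodule.finrank_mono (htr u)).trans (LinearMap.finrank_range_le Φ)
    exact le_trans (by exact_mod_cast h1) hD
  have hmean : ∀ u, ∑ g, Φ u g = 0 := by
    intro u
    simp only [hΦa]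
    rw [← inner_sum, hsum, inner_zero_right]
  have hwalk : ∀ u g, walk x (Φ u) g = inner ℝ u (ρ g (repWalk x ρ v)) := by
    intro u g
    unfold walk repWalk
    simp only [hΦa]
    rw [map_smul, map_sum, inner_smul_right, inner_sum, div_eq_inv_mul, one_div]
    congr 1
    refine Finset.sum_congr rfl fun i _ => ?_
    rw [hmul, hmul, map_add, inner_add_right]
  set b := stdOrthonormalBasis ℝ V with hb
  have key := Finset.sum_le_sum (s := Finset.univ) (fun i _ => hG (Φ (b i)) (hdim _) (hmean _))
  have e1 : ∑ i, ∑ g, Φ (b i) g * walk x (Φ (b i)) g =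
      Fintype.card G * inner ℝ v (repWalk x ρ v) := by
    rw [Finset.sum_comm]
    have h1 : ∀ g, ∑ i, Φ (b i) g * walk x (Φ (b i)) g = inner ℝ v (repWalk x ρ v) := by
      intro g
      rw [← (ρ g).inner_map_map v (repWalk x ρ v), ← b.sum_inner_mul_inner]
      refine Finset.sum_congr rfl fun i _ => ?_
      rw [hwalk, hΦa, real_inner_comm]
    simp only [h1, Finset.sum_const, Finset.card_univ, nsmul_eq_mul]
  have e2 : ∑ i, (1 - ε) * ∑ g, Φ (b i) g ^ 2 = Fintype.card G * ((1 - ε) * ‖v‖ ^ 2) := by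
    rw [← Finset.mul_sum, Finset.sum_comm]
    have h1 : ∀ g, ∑ i, Φ (b i) g ^ 2 = ‖v‖ ^ 2 := by
      intro g
      rw [← (ρ g).norm_map v, ← real_inner_self_eq_norm_sq, ← b.sum_inner_mul_inner]
      refine Finset.sum_congr rfl fun i _ => ?_
      rw [hΦa, sq, real_inner_comm (b i) (ρ g v)]
    simp only [h1, Finset.sum_const, Finset.card_univ, nsmul_eq_mul]
    ring
  rw [e1, e2] at key
  exact le_of_mul_le_mul_left key (by exact_mod_cast Fintype.card_pos)

/-- the walk as a linear map -/
def walkHom (x : Fin k → G) : Module.End ℝ (G → ℝ) where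
  toFun := walk x
  map_add' f f' := by
    funext g
    simp only [walk, Pi.add_apply]
    rw [← add_div, ← Finset.sum_add_distrib]
    congr 1
    refine Finset.sum_congr rfl fun i _ => ?_
    ring
  map_smul' c f := by
    funext g
    simp only [walk, Pi.smul_apply, smul_eq_mul, RingHom.id_apply]
    rw [← mul_div_assoc, Finset.mul_sum]
    congr 1
    refine Finset.sum_congr rfl fun i _ => ?_
    ring

theorem mult_gap {D ε : ℝ} {x : Fin k → G} (hG : FunGap D ε x) (μ : ℝ) (hμ : 1 - ε < μ)
    (f : G → ℝ) (hf : f ≠ 0) (hf0 : ∑ g, f g = 0) (hfμ : walk x f = μ • f) :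
    D < finrank ℝ (Module.End.eigenspace (walkHom x) μ) := by
  by_contra hcon
  push Not at hcon
  have htr : translates f ≤ Module.End.eigenspace (walkHom x) μ := by
    apply translates_le
    intro a
    rw [Module.End.mem_eigenspace_iff]
    show walk x (fun g => f (a * g)) = μ • fun g => f (a * g)
    funext g
    have h1 := congrFun hfμ (a * g)
    simp only [walk, Pi.smul_apply, smul_eq_mul] at h1 ⊢
    rw [← h1]
    simp only [mul_assoc]
  have h1 : (finrank ℝ (translates f) : ℝ) ≤ D :=
    le_trans (by exact_mod_cast Submodule.finrank_mono htr) hcon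
  have h2 := hG f h1 hf0
  rw [hfμ] at h2
  have h3 : ∑ g, f g * (μ • f) g = μ * ∑ g, f g ^ 2 := by
    rw [Finset.mul_sum]
    refine Finset.sum_congr rfl fun g _ => ?_
    simp only [Pi.smul_apply, smul_eq_mul]
    ring
  rw [h3] at h2
  have h4 : 0 < ∑ g, f g ^ 2 := by
    obtain ⟨g, hg⟩ := Function.ne_iff.1 hf
    exact Finset.sum_pos' (fun g _ => sq_nonneg _) ⟨g, Finset.mem_univ g, by
      have : f g ≠ 0 := hg
      positivity⟩
  nlinarith

/-- the averaging operator of the Schreier graph of an action -/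
def actWalk {Y : Type} [MulAction G Y] (x : Fin k → G) (f : Y → ℝ) (y : Y) : ℝ :=
  (∑ i, (f (x i • y) + f ((x i)⁻¹ • y))) / (2 * k)

theorem act_gap {D ε : ℝ} {x : Fin k → G} (hG : FunGap D ε x) {Y : Type} [Fintype Y]
    [MulAction G Y] [MulAction.IsPretransitive G Y] (hY : (Fintype.card Y : ℝ) ≤ D)
    (f : Y → ℝ) (hf : ∑ y, f y = 0) :
    ∑ y, f y * actWalk x f y ≤ (1 - ε) * ∑ y, f y ^ 2 := by
  classical
  rcases isEmpty_or_nonempty Y with hE | hE
  · simp
  set F : Y → G → ℝ := fun y g => f (g⁻¹ • y) with hF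
  have hdim : ∀ y, (finrank ℝ (translates (F y)) : ℝ) ≤ D := by
    intro y
    have h1 : translates (F y) ≤ Submodule.span ℝ (Set.range F) := by
      apply translates_le
      intro a
      refine Submodule.subset_span ⟨a⁻¹ • y, ?_⟩
      funext g
      simp [hF, mul_smul]
    have h2 : finrank ℝ (translates (F y)) ≤ Fintype.card Y :=
      (Submodule.finrank_mono h1).trans (finrank_range_le_card F)
    exact le_trans (by exact_mod_cast h2) hY
  have hsumF : ∀ y, ∑ g, F y g = ∑ g : G, f (g • y) := by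
    intro y
    refine Fintype.sum_equiv (Equiv.inv G) _ _ fun g => ?_
    simp [hF]
  have hmean : ∀ y, ∑ g, F y g = 0 := by
    have hconst : ∀ (h : G) y, ∑ g : G, f (g • h • y) = ∑ g : G, f (g • y) := by
      intro h y
      refine Fintype.sum_equiv (Equiv.mulRight h) _ _ fun g => ?_
      simp [mul_smul]
    intro y
    rw [hsumF]
    have h1 : ∀ y', ∑ g : G, f (g • y') = ∑ g : G, f (g • y) := by
      intro y'
      obtain ⟨h, rfl⟩ := MulAction.exists_smul_eq G y y'
      exact hconst h y
    have h2 : ∑ y', ∑ g : G, f (g • y') = 0 := by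
      rw [Finset.sum_comm]
      apply Finset.sum_eq_zero
      intro g _
      rw [← hf]
      exact Fintype.sum_equiv (MulAction.toPerm g) _ _ fun y => rfl
    rw [Finset.sum_congr rfl fun y' _ => h1 y', Finset.sum_const, nsmul_eq_mul] at h2
    rcases mul_eq_zero.1 h2 with h3 | h3
    · exfalso
      have : Fintype.card Y = 0 := by exact_mod_cast h3
      exact (Fintype.card_pos (α := Y)).ne' this
    · exact h3
  have hwalk : ∀ y g, walk x (F y) g = actWalk x f (g⁻¹ • y) := by
    intro y g
    unfold walk actWalk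
    congr 1
    refine Finset.sum_congr rfl fun i _ => ?_
    simp only [hF, mul_inv_rev, inv_inv, mul_smul]
    ring
  have key := Finset.sum_le_sum (s := Finset.univ) (fun y _ => hG (F y) (hdim y) (hmean y))
  have e1 : ∑ y, ∑ g, F y g * walk x (F y) g = Fintype.card G * ∑ y, f y * actWalk x f y := by
    rw [Finset.sum_comm]
    have h1 : ∀ g : G, ∑ y, F y g * walk x (F y) g = ∑ y, f y * actWalk x f y := by
      intro g
      refine Fintype.sum_equiv (MulAction.toPerm g⁻¹) _ _ fun y => ?_
      rw [hwalk]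
      rfl
    rw [Finset.sum_congr rfl fun g _ => h1 g, Finset.sum_const, Finset.card_univ, nsmul_eq_mul]
  have e2 : ∑ y, (1 - ε) * ∑ g, F y g ^ 2 = Fintype.card G * ((1 - ε) * ∑ y, f y ^ 2) := by
    rw [← Finset.mul_sum, Finset.sum_comm]
    have h1 : ∀ g : G, ∑ y, F y g ^ 2 = ∑ y, f y ^ 2 := by
      intro g
      exact Fintype.sum_equiv (MulAction.toPerm g⁻¹) _ _ fun y => rfl
    rw [Finset.sum_congr rfl fun g _ => h1 g, Finset.sum_const, Finset.card_univ, nsmul_eq_mul]
    ring
  rw [e1, e2] at key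
  exact le_of_mul_le_mul_left key (by exact_mod_cast Fintype.card_pos)

end

end Pool.Agent.R352.LR
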